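import Pool.Agent.H613R2.EA.CHAIN

/-! Exponential decay of the chain sums of the Edwards-Anderson model. -/

set_option autoImplicit false

open MeasureTheory ProbabilityTheory
open scoped ENNReal

namespace Pool.Agent.Q220.EA

open Pool.H47EA

variable {d : ℕ}

/-- weighted chain sum: every site of a chain gets the additional factor `3/2` -/
noncomputable def GG (R' : ℕ) (A : Finset (Site d)) (p : Site d → ℝ≥0∞) : ℝ≥0∞ :=
  ∑' l : List (Site d), open Classical in
    if IsCh R' A l then (3 / 2 : ℝ≥0∞) ^ l.length * (l.map p).prod else 0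

theorem chSum_le (R' : ℕ) (A : Finset (Site d)) (p : Site d → ℝ≥0∞) (n : ℕ) :
    chSum R' A p n ≤ (2 / 3 : ℝ≥0∞) ^ n * GG R' A p := by
  classical
  unfold chSum GG
  rw [← ENNReal.tsum_mul_left]
  refine ENNReal.tsum_le_tsum fun l => ?_
  by_cases h : IsCh R' A l
  · by_cases hn : n ≤ l.length
    · rw [if_pos ⟨h, hn⟩, if_pos h, ← mul_assoc]
      have h1 : (1 : ℝ≥0∞) ≤ (2 / 3 : ℝ≥0∞) ^ n * (3 / 2 : ℝ≥0∞) ^ l.length := by
        obtain ⟨k, hk⟩ := Nat.exists_eq_add_of_le hn
        have e : (2 / 3 : ℝ≥0∞) * (3 / 2) = 1 := by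
          rw [← ENNReal.toReal_eq_toReal_iff' (by finiteness) (by finiteness)]
          rw [ENNReal.toReal_mul, ENNReal.toReal_div, ENNReal.toReal_div]
          norm_num
        rw [hk, pow_add, ← mul_assoc, ← mul_pow, e, one_pow, one_mul]
        refine one_le_pow₀ ?_
        rw [ENNReal.le_div_iff_mul_le (by simp) (by simp)]
        norm_num
      calc (l.map p).prod = 1 * (l.map p).prod := (one_mul _).symm
        _ ≤ _ := by gcongr
    · rw [if_neg (fun h' => hn h'.2)]; exact zero_le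
  · rw [if_neg (fun h' => h h'.1)]; exact zero_le

theorem sum_bound (R' N : ℕ) (hN : ∀ x : Site d, (ball x (R' + 1)).card ≤ N)
    (A : Finset (Site d)) (c : ℝ≥0∞) (hc : (N : ℝ≥0∞) * c ≤ 3 / 4) (w : List (Site d) → ℝ≥0∞)
    (hw : ∀ l, IsCh R' A l → w l ≤ c ^ l.length) (hw' : ∀ l, ¬ IsCh R' A l → w l = 0) :
    ∑' l, w l ≤ 4 * A.card := by
  classical
  have h1 : ∀ l, w l ≤ ∑' m : ℕ, if l ∈ chainS R' A m then c ^ (m + 1) else 0 := by
    intro l
    by_cases hl : IsCh R' A l
    · obtain ⟨h2, h3⟩ := chain_mem_S R' A l hl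
      refine (hw l hl).trans ?_
      refine le_trans ?_ (ENNReal.le_tsum (l.length - 1))
      rw [if_pos h2, Nat.sub_add_cancel h3]
    · rw [hw' l hl]; exact zero_le
  have h34 : (3 / 4 : ℝ≥0∞) ≤ 1 := by
    rw [ENNReal.div_le_iff (by simp) (by simp)]; norm_num
  calc ∑' l, w l ≤ ∑' l, ∑' m : ℕ, (if l ∈ chainS R' A m then c ^ (m + 1) else 0) :=
        ENNReal.tsum_le_tsum h1
    _ = ∑' m : ℕ, ∑' l, (if l ∈ chainS R' A m then c ^ (m + 1) else 0) := ENNReal.tsum_comm
    _ ≤ ∑' m : ℕ, A.card * (3 / 4 : ℝ≥0∞) ^ (m + 1) := by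
        refine ENNReal.tsum_le_tsum fun m => ?_
        rw [tsum_eq_sum (s := chainS R' A m) (fun l hl => if_neg hl),
          Finset.sum_congr rfl (fun l hl => if_pos hl), Finset.sum_const, nsmul_eq_mul]
        calc ((chainS R' A m).card : ℝ≥0∞) * c ^ (m + 1)
            ≤ ((A.card * N ^ (m + 1) : ℕ) : ℝ≥0∞) * c ^ (m + 1) := by
              gcongr
              exact chain_S_card R' N hN A m
          _ = A.card * (N * c) ^ (m + 1) := by push_cast; rw [mul_pow]; ring
          _ ≤ A.card * (3 / 4 : ℝ≥0∞) ^ (m + 1) := by gcongr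
    _ ≤ 4 * A.card := by
        rw [ENNReal.tsum_mul_left, mul_comm]
        gcongr
        calc ∑' m : ℕ, (3 / 4 : ℝ≥0∞) ^ (m + 1) ≤ ∑' m : ℕ, (3 / 4 : ℝ≥0∞) ^ m := by
              refine ENNReal.tsum_le_tsum fun m => ?_
              exact pow_le_pow_of_le_one zero_le h34 (Nat.le_succ m)
          _ ≤ 4 := by
              rw [ENNReal.tsum_geometric]
              have e : (1 : ℝ≥0∞) - 3 / 4 = 1 / 4 := by
                refine ENNReal.sub_eq_of_eq_add (by finiteness) ?_
                rw [← ENNReal.toReal_eq_toReal_iff' (by finiteness) (by finiteness)]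
                rw [ENNReal.toReal_add (by finiteness) (by finiteness), ENNReal.toReal_div,
                  ENNReal.toReal_div]
                norm_num
              rw [e, one_div, inv_inv]

/-- **The mean of the weighted chain sums.** -/
theorem mean_GG (d R : ℕ) (Bad : Site d → Set (Coupling d)) (b ε : ℝ≥0∞) (N : ℕ)
    (h1 : ∀ x (J J' : Coupling d), (∀ e : (lat d).edgeSet, (∀ v ∈ e.1, v ∈ ball x R) → J e = J' e) →
      (J ∈ Bad x ↔ J' ∈ Bad x))
    (h2 : ∀ x, couplingLaw d (Bad x) ≤ b)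
    (h3 : ∀ x : Site d, (ball x (2 * R + 1)).card ≤ N)
    (h4 : (N : ℝ≥0∞) * (ε + b) ≤ 2⁻¹) (A : Finset (Site d)) :
    Measurable (fun J => GG (2 * R) A (chainP Bad ε J)) ∧
      ∫⁻ J, GG (2 * R) A (chainP Bad ε J) ∂(couplingLaw d) ≤ 4 * A.card := by
  classical
  set g : Coupling d → List (Site d) → ℝ≥0∞ := fun J l =>
    if IsCh (2 * R) A l then (3 / 2 : ℝ≥0∞) ^ l.length * (l.map (chainP Bad ε J)).prod else 0 with hg
  have hmeas : ∀ l, Measurable (fun J => g J l) := by
    intro l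
    by_cases hl : IsCh (2 * R) A l
    · simp only [hg, if_pos hl]
      exact measurable_const.mul
        (chain_meas (chainFF R l) _ (fun J J' h => chain_Pl_dep h1 l J J' h))
    · simp only [hg, if_neg hl]
      exact measurable_const
  have e : (fun J => GG (2 * R) A (chainP Bad ε J)) = fun J => ∑' l, g J l := by
    funext J
    unfold GG
    refine tsum_congr fun l => ?_
    simp only [hg]
  rw [e]
  refine ⟨Measurable.tsum hmeas, ?_⟩
  rw [lintegral_tsum (fun l => (hmeas l).aemeasurable)]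
  refine sum_bound (2 * R) N h3 A (3 / 2 * (ε + b)) ?_ _ (fun l hl => ?_) (fun l hl => ?_)
  · calc (N : ℝ≥0∞) * (3 / 2 * (ε + b)) = 3 / 2 * (N * (ε + b)) := by ring
      _ ≤ 3 / 2 * 2⁻¹ := by gcongr
      _ = 3 / 4 := by
          rw [← ENNReal.toReal_eq_toReal_iff' (by finiteness) (by finiteness)]
          rw [ENNReal.toReal_mul, ENNReal.toReal_div, ENNReal.toReal_div, ENNReal.toReal_inv]
          norm_num
  · simp only [hg, if_pos hl]
    rw [lintegral_const_mul _ (chain_meas (chainFF R l) _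
      (fun J J' h => chain_Pl_dep h1 l J J' h)), mul_pow]
    gcongr
    exact chain_lint_Pl h1 h2 l (chain_pairwise _ _ l hl)
  · simp only [hg, if_neg hl, lintegral_zero]

end Pool.Agent.Q220.EA
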