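import Pool.Agent.Q220.EA.Mix

/-! Exponential mixing of the Gibbs state of the Edwards-Anderson model for `β ≤ c/√d`: final form. -/

set_option autoImplicit false

open MeasureTheory Filter
open scoped ENNReal Topology

namespace Pool.Agent.Q220.EA

open Pool.H47EA

theorem mem_cube {d m : ℕ} {x : Site d} : x ∈ cube d m ↔ ∀ i, |x i| ≤ (m : ℤ) := by
  unfold cube
  rw [Finset.mem_Icc, Pi.le_def, Pi.le_def, ← forall_and]
  exact forall_congr' fun i => abs_le.symm

theorem card_cube (d m : ℕ) : (cube d m).card = (2 * m + 1) ^ d := by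
  unfold cube
  rw [Pi.card_Icc]
  simp only [Int.card_Icc, Finset.prod_const, Finset.card_univ, Fintype.card_fin]
  congr 1
  omega

/-- the influence of the boundary condition, in exponential form -/
theorem infl {d : ℕ} (hd : 1 ≤ d) {β : ℝ} {J : Coupling d} {G : Finset (Site d) → ℝ≥0∞}
    (hG : ∀ A, G A < ∞)
    (h : ∀ (A : Finset (Site d)) (n : ℕ) (Λ : Finset (Site d)) (f : (Site d → Bool) → ℝ),
          Unit01 f → LocalOn A f →
          (∀ a ∈ A, ∀ y, y ∉ Λ → (n + 1) * (2 * (16 * d) + 1) ≤ dist1 a y) →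
          ∀ ω ω' : Site d → Bool,
            ENNReal.ofReal |gE β J Λ ω f - gE β J Λ ω' f| ≤ (2 / 3 : ℝ≥0∞) ^ n * G A)
    (m r : ℕ) (f : (Site d → Bool) → ℝ) (hf : Unit01 f) (hl : LocalOn (cube d m) f)
    (ω ω' : Site d → Bool) :
    |gE β J (cube d (m + r)) ω f - gE β J (cube d (m + r)) ω' f| ≤
      9 / 4 * (1 + (G (cube d m)).toReal) * Real.exp (-(r : ℝ) / (100 * d)) := by
  have hx := rate_exp d hd r
  set q := 2 * (16 * d) + 1 with hq
  have hG0 : 0 ≤ (G (cube d m)).toReal := ENNReal.toReal_nonneg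
  have key : |gE β J (cube d (m + r)) ω f - gE β J (cube d (m + r)) ω' f| ≤
      (2 / 3 : ℝ) ^ ((r + 1) / q) * (3 / 2 * (1 + (G (cube d m)).toReal)) := by
    rcases Nat.eq_zero_or_pos ((r + 1) / q) with h0 | h0
    · rw [h0, pow_zero, one_mul]
      have h1 := gE_indicator_mem β J (cube d (m + r)) ω f hf
      have h2 := gE_indicator_mem β J (cube d (m + r)) ω' f hf
      have : |gE β J (cube d (m + r)) ω f - gE β J (cube d (m + r)) ω' f| ≤ 1 := by
        rw [abs_le]; constructor <;> linarith [h1.1, h1.2, h2.1, h2.2]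
      nlinarith
    · obtain ⟨n, hn⟩ := Nat.exists_eq_add_of_le' h0
      rw [hn]
      have hfar : ∀ a ∈ cube d m, ∀ y, y ∉ cube d (m + r) → (n + 1) * q ≤ dist1 a y := by
        intro a ha y hy
        have h1 := far_cube ha hy
        have h2 : (r + 1) / q * q ≤ r + 1 := Nat.div_mul_le_self _ _
        rw [hn] at h2
        exact h2.trans h1
      have h3 := h (cube d m) n (cube d (m + r)) f hf hl hfar ω ω'
      have h4 := ENNReal.toReal_mono (by
        exact ENNReal.mul_ne_top (by finiteness) (hG _).ne) h3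
      rw [ENNReal.toReal_ofReal (abs_nonneg _), ENNReal.toReal_mul, ENNReal.toReal_pow,
        ENNReal.toReal_div] at h4
      refine h4.trans ?_
      rw [pow_succ]
      have hp : (0 : ℝ) ≤ (2 / 3 : ℝ) ^ n := by positivity
      simp only [ENNReal.toReal_ofNat]
      nlinarith
  refine key.trans ?_
  have h5 := mul_le_mul_of_nonneg_right hx (show 0 ≤ 3 / 2 * (1 + (G (cube d m)).toReal) by positivity)
  refine h5.trans (le_of_eq ?_)
  ring

/-- **Exponential mixing.** -/
theorem main :
    ∃ c : ℝ, 0 < c ∧ ∀ d : ℕ, 1 ≤ d → ∃ K : ℕ → Coupling d → ℝ,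
      (∀ m, Measurable (K m) ∧ (∀ J, 0 ≤ K m J) ∧ Integrable (K m) (couplingLaw d) ∧
        ∫ J, K m J ∂(couplingLaw d) ≤ 12 * (2 * m + 1) ^ d) ∧
      ∀ᵐ J ∂(couplingLaw d), ∀ β : ℝ, 0 < β → β ≤ c / √(d : ℝ) →
        ∃ π : Measure (Site d → Bool), IsGibbs β J π ∧
          (∀ π' : Measure (Site d → Bool), IsGibbs β J π' → π' = π) ∧
          ∀ (m r : ℕ) (F : Set (Site d → Bool)), MeasurableSet F →
            (∀ σ σ' : Site d → Bool, (∀ x ∈ cube d m, σ x = σ' x) → (σ ∈ F ↔ σ' ∈ F)) →
            (∀ B : Set (Site d → Bool), MeasurableSet B →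
              (∀ σ σ' : Site d → Bool, (∀ x, x ∉ cube d (m + r) → σ x = σ' x) →
                (σ ∈ B ↔ σ' ∈ B)) →
              |(π (F ∩ B)).toReal - (π F).toReal * (π B).toReal| ≤
                K m J * Real.exp (-(r : ℝ) / (100 * d)) * (π B).toReal) ∧
            ∀ (Λ : Finset (Site d)) (ω : Site d → Bool), cube d (m + r) ⊆ Λ →
              |gE β J Λ ω (F.indicator fun _ => (1 : ℝ)) - (π F).toReal| ≤
                K m J * Real.exp (-(r : ℝ) / (100 * d)) := by
  classical
  obtain ⟨c, hc, hrate⟩ := rate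
  refine ⟨c, hc, fun d hd => ?_⟩
  obtain ⟨G, hGm, hGi, hG⟩ := hrate d hd
  have hfin : ∀ A, ∀ᵐ J ∂(couplingLaw d), G A J < ∞ := fun A =>
    ae_lt_top (hGm A) (ne_top_of_le_ne_top (by finiteness) (hGi A))
  refine ⟨fun m J => 9 / 4 * (1 + (G (cube d m) J).toReal), fun m => ?_, ?_⟩
  · have hm1 : Measurable fun J => (G (cube d m) J).toReal := (hGm _).ennreal_toReal
    have hi : Integrable (fun J => (G (cube d m) J).toReal) (couplingLaw d) :=
      integrable_toReal_of_lintegral_ne_top (hGm _).aemeasurable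
        (ne_top_of_le_ne_top (by finiteness) (hGi (cube d m)))
    refine ⟨measurable_const.mul (measurable_const.add hm1), fun J => by positivity,
      ((integrable_const _).add hi).const_mul _, ?_⟩
    rw [integral_const_mul, integral_add (integrable_const _) hi, integral_const,
      integral_toReal (hGm _).aemeasurable (hfin _)]
    have h1 := ENNReal.toReal_mono (by finiteness) (hGi (cube d m))
    rw [ENNReal.toReal_mul, card_cube] at h1
    simp only [ENNReal.toReal_ofNat, ENNReal.toReal_natCast] at h1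
    push_cast at h1
    have h2 : (1 : ℝ) ≤ (2 * (m : ℝ) + 1) ^ d := one_le_pow₀ (by
      have : (0 : ℝ) ≤ m := Nat.cast_nonneg m
      linarith)
    simp only [probReal_univ, smul_eq_mul, mul_one]
    linarith
  · have hall : ∀ᵐ J ∂(couplingLaw d), ∀ A, G A J < ∞ := ae_all_iff.2 hfin
    filter_upwards [hall] with J hJ β hβ0 hβ
    have hF : Forget β J := forget hJ (fun A => hG J β hβ0 hβ A)
    obtain ⟨π, hπ⟩ := t_GIBBSE t_BASIC d β J hF
    refine ⟨π, hπ, fun π' hπ' => t_GIBBSU d β J hF π' π hπ' hπ, fun m r F hFm hFl => ?_⟩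
    have hu : Unit01 (F.indicator fun _ => (1 : ℝ)) := by
      intro σ
      by_cases h : σ ∈ F
      · rw [Set.indicator_of_mem h]; norm_num
      · rw [Set.indicator_of_notMem h]; norm_num
    have hl : LocalOn (cube d m) (F.indicator fun _ => (1 : ℝ)) := by
      intro σ σ' h
      have := hFl σ σ' h
      by_cases h1 : σ ∈ F
      · rw [Set.indicator_of_mem h1, Set.indicator_of_mem (this.1 h1)]
      · rw [Set.indicator_of_notMem h1, Set.indicator_of_notMem (fun h2 => h1 (this.2 h2))]
    have hI := infl hd hJ (fun A => hG J β hβ0 hβ A) m r _ hu hl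
    refine ⟨fun B hBm hBl => mix hπ _ _ hFm hBm hBl hI, fun Λ ω hΛ => ?_⟩
    set g : (Site d → Bool) → ℝ := fun ω => gE β J (cube d (m + r)) ω
      (F.indicator fun _ => (1 : ℝ)) with hg
    have hprob := hπ.1
    have hgm : Measurable g := meas_gE β J _ _ (measurable_const.indicator hFm)
    have h01 : ∀ ω, 0 ≤ g ω ∧ g ω ≤ 1 := fun ω => gE_indicator_mem β J _ ω _ hu
    have hgi : Integrable g π := Integrable.of_bound hgm.aestronglyMeasurable 1
      (ae_of_all _ fun ω => by rw [Real.norm_eq_abs, abs_of_nonneg (h01 ω).1]; exact (h01 ω).2)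
    have h1 : (π F).toReal = ∫ ω, g ω ∂π := hπ.2 _ _ F hFm
    set ε := 9 / 4 * (1 + (G (cube d m) J).toReal) * Real.exp (-(r : ℝ) / (100 * d)) with hε
    have h3 : ∀ τ, |g τ - (π F).toReal| ≤ ε := by
      intro τ
      rw [h1]
      have e : g τ - ∫ ω', g ω' ∂π = ∫ ω', (g τ - g ω') ∂π := by
        rw [integral_sub (integrable_const _) hgi, integral_const]
        simp
      rw [e]
      refine (abs_integral_le_integral_abs).trans ?_
      have : ∫ ω', |g τ - g ω'| ∂π ≤ ∫ _, ε ∂π := by
        refine integral_mono ((integrable_const _).sub hgi).abs (integrable_const _) fun ω' => ?_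
        exact hI τ ω'
      simpa using this
    obtain ⟨-, hconst, hmono, -, -, hcons, -⟩ := t_BASIC d β J Λ ω
    have e1 := hcons (cube d (m + r)) hΛ (F.indicator fun _ => (1 : ℝ))
    have e2 := hmono (fun τ => gE β J (cube d (m + r)) τ (F.indicator fun _ => (1 : ℝ)))
      (fun _ => (π F).toReal + ε) (fun η => by
        have := (abs_le.1 (h3 (glue Λ η ω))).2
        simp only [hg] at this
        linarith)
    have e3 := hmono (fun _ => (π F).toReal - ε)
      (fun τ => gE β J (cube d (m + r)) τ (F.indicator fun _ => (1 : ℝ))) (fun η => by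
        have := (abs_le.1 (h3 (glue Λ η ω))).1
        simp only [hg] at this
        linarith)
    rw [hconst] at e2 e3
    rw [← e1] at e2 e3
    rw [abs_le]
    constructor <;> linarith

end Pool.Agent.Q220.EA
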