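import Pool.Agent.Q220.EA.Rate

/-! Exponential mixing of the Gibbs state of the Edwards-Anderson model for `β ≤ c/√d`. -/

set_option autoImplicit false

open MeasureTheory Filter
open scoped ENNReal Topology

namespace Pool.Agent.Q220.EA

open Pool.H47EA

/-- A small influence of the boundary condition gives mixing. -/
theorem mix {d : ℕ} {β : ℝ} {J : Coupling d} {π : Measure (Site d → Bool)} (hπ : IsGibbs β J π)
    (a b : Site d) {F B : Set (Site d → Bool)} (hF : MeasurableSet F) (hB : MeasurableSet B)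
    (hBl : ∀ σ σ' : Site d → Bool, (∀ x, x ∉ Finset.Icc a b → σ x = σ' x) → (σ ∈ B ↔ σ' ∈ B))
    {ε : ℝ} (hε : ∀ ω ω' : Site d → Bool,
      |gE β J (Finset.Icc a b) ω (F.indicator fun _ => (1 : ℝ)) -
        gE β J (Finset.Icc a b) ω' (F.indicator fun _ => (1 : ℝ))| ≤ ε) :
    |(π (F ∩ B)).toReal - (π F).toReal * (π B).toReal| ≤ ε * (π B).toReal := by
  classical
  have hprob := hπ.1
  set Λ := Finset.Icc a b with hΛ
  set g : (Site d → Bool) → ℝ := fun ω => gE β J Λ ω (F.indicator fun _ => (1 : ℝ)) with hg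
  have hgm : Measurable g := meas_gE β J Λ _ (measurable_const.indicator hF)
  have h01 : ∀ ω, 0 ≤ g ω ∧ g ω ≤ 1 := fun ω => gE_indicator_mem β J Λ ω _ (by
    intro σ
    by_cases h : σ ∈ F
    · rw [Set.indicator_of_mem h]; norm_num
    · rw [Set.indicator_of_notMem h]; norm_num)
  have hgi : Integrable g π := Integrable.of_bound hgm.aestronglyMeasurable 1
    (ae_of_all _ fun ω => by rw [Real.norm_eq_abs, abs_of_nonneg (h01 ω).1]; exact (h01 ω).2)
  have h1 : (π F).toReal = ∫ ω, g ω ∂π := hπ.2 a b F hF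
  have h2 : (π (F ∩ B)).toReal = ∫ ω in B, g ω ∂π := by
    rw [hπ.2 a b (F ∩ B) (hF.inter hB), ← integral_indicator hB]
    refine integral_congr_ae (ae_of_all _ fun ω => ?_)
    have hgl : ∀ η : Λ → Bool, (glue Λ η ω ∈ B ↔ ω ∈ B) := fun η => hBl _ _ (fun x hx => by
      unfold glue
      rw [dif_neg hx])
    show gE β J Λ ω ((F ∩ B).indicator fun _ => (1 : ℝ)) = B.indicator g ω
    by_cases hω : ω ∈ B
    · rw [Set.indicator_of_mem hω]
      simp only [hg]
      unfold gE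
      congr 1
      refine Finset.sum_congr rfl fun η _ => ?_
      congr 1
      by_cases h : glue Λ η ω ∈ F
      · rw [Set.indicator_of_mem h, Set.indicator_of_mem (show glue Λ η ω ∈ F ∩ B from ⟨h, (hgl η).2 hω⟩)]
      · rw [Set.indicator_of_notMem h, Set.indicator_of_notMem (fun h' => h h'.1)]
    · rw [Set.indicator_of_notMem hω]
      unfold gE
      rw [div_eq_zero_iff]
      left
      refine Finset.sum_eq_zero fun η _ => ?_
      rw [Set.indicator_of_notMem (fun h' => hω ((hgl η).1 h'.2)), mul_zero]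
  have h3 : ∀ ω, |g ω - (π F).toReal| ≤ ε := by
    intro ω
    rw [h1]
    have e : g ω - ∫ ω', g ω' ∂π = ∫ ω', (g ω - g ω') ∂π := by
      rw [integral_sub (integrable_const _) hgi, integral_const]
      simp
    rw [e]
    refine (abs_integral_le_integral_abs).trans ?_
    have : ∫ ω', |g ω - g ω'| ∂π ≤ ∫ _, ε ∂π := by
      refine integral_mono ((integrable_const _).sub hgi).abs (integrable_const _) fun ω' => ?_
      exact hε ω ω'
    simpa using this
  have hε0 : 0 ≤ ε := (abs_nonneg _).trans (h3 (fun _ => true))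
  have e2 : (π (F ∩ B)).toReal - (π F).toReal * (π B).toReal =
      ∫ ω in B, (g ω - (π F).toReal) ∂π := by
    rw [integral_sub hgi.integrableOn (integrable_const _), setIntegral_const, h2]
    simp only [smul_eq_mul, measureReal_def]
    ring
  rw [e2]
  calc |∫ ω in B, (g ω - (π F).toReal) ∂π| ≤ ∫ ω in B, |g ω - (π F).toReal| ∂π :=
        abs_integral_le_integral_abs
    _ ≤ ∫ _ in B, ε ∂π := by
        refine integral_mono_of_nonneg (ae_of_all _ fun _ => abs_nonneg _) (integrable_const _)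
          (ae_of_all _ fun ω => h3 ω)
    _ = ε * (π B).toReal := by
        rw [setIntegral_const, smul_eq_mul, measureReal_def, mul_comm]

/-- finiteness of all the random constants implies that boundary conditions are forgotten -/
theorem forget {d : ℕ} {β : ℝ} {J : Coupling d} {R : ℕ} {G : Finset (Site d) → ℝ≥0∞}
    (hG : ∀ A, G A < ∞)
    (h : ∀ (A : Finset (Site d)) (n : ℕ) (Λ : Finset (Site d)) (f : (Site d → Bool) → ℝ),
          Unit01 f → LocalOn A f →
          (∀ a ∈ A, ∀ y, y ∉ Λ → (n + 1) * R ≤ dist1 a y) →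
          ∀ ω ω' : Site d → Bool,
            ENNReal.ofReal |gE β J Λ ω f - gE β J Λ ω' f| ≤ (2 / 3 : ℝ≥0∞) ^ n * G A) :
    Forget β J := by
  classical
  intro A δ hδ
  have h23 : (2 / 3 : ℝ≥0∞) < 1 := by
    rw [ENNReal.div_lt_iff (by simp) (by simp)]; norm_num
  have ht : Tendsto (fun n : ℕ => (2 / 3 : ℝ≥0∞) ^ n * G A) atTop (𝓝 0) := by
    have := ENNReal.Tendsto.mul_const (b := G A) (ENNReal.tendsto_pow_atTop_nhds_zero_of_lt_one h23)
      (Or.inr (hG A).ne)
    simpa using this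
  obtain ⟨n, hn⟩ := ((ENNReal.tendsto_nhds_zero.mp ht) (ENNReal.ofReal δ) (by simpa using hδ)).exists
  refine ⟨A.biUnion fun a => ball a ((n + 1) * R), fun Λ hΛ f hf hloc ω ω' => ?_⟩
  have hfar : ∀ a ∈ A, ∀ y, y ∉ Λ → (n + 1) * R ≤ dist1 a y := by
    intro a ha y hy
    by_contra hcon
    apply hy
    apply hΛ
    rw [Finset.mem_biUnion]
    exact ⟨a, ha, (mem_ball_iff a y _).2 (by omega)⟩
  exact (ENNReal.ofReal_le_ofReal_iff hδ.le).1 ((h A n Λ f hf hloc hfar ω ω').trans hn)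

/-- the cube `{-m, ..., m}^d` -/
noncomputable def cube (d m : ℕ) : Finset (Site d) := Finset.Icc (fun _ => -(m : ℤ)) (fun _ => (m : ℤ))

theorem far_cube {d m r : ℕ} {a y : Site d} (ha : a ∈ cube d m) (hy : y ∉ cube d (m + r)) :
    r + 1 ≤ dist1 a y := by
  unfold cube at ha hy
  rw [Finset.mem_Icc, Pi.le_def, Pi.le_def] at ha hy
  have : ∃ i, ¬ (-((m + r : ℕ) : ℤ) ≤ y i ∧ y i ≤ ((m + r : ℕ) : ℤ)) := by
    by_contra hcon
    push Not at hcon
    exact hy ⟨fun i => (hcon i).1, fun i => (hcon i).2⟩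
  obtain ⟨i, hi⟩ := this
  have h1 := ha.1 i
  have h2 := ha.2 i
  have h3 : (a i - y i).natAbs ≤ dist1 a y :=
    Finset.single_le_sum (f := fun i => (a i - y i).natAbs) (fun _ _ => Nat.zero_le _)
      (Finset.mem_univ i)
  push_cast at hi
  omega

theorem rate_exp (d : ℕ) (hd : 1 ≤ d) (r : ℕ) :
    (2 / 3 : ℝ) ^ ((r + 1) / (2 * (16 * d) + 1)) ≤ 3 / 2 * Real.exp (-(r : ℝ) / (100 * d)) := by
  set q := 2 * (16 * d) + 1 with hq
  set n := (r + 1) / q with hn
  have hq0 : 0 < q := by omega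
  have h1 : r + 1 < q * (n + 1) := Nat.lt_mul_div_succ _ hq0
  have hd' : (1 : ℝ) ≤ d := by exact_mod_cast hd
  have hl : (2 / 5 : ℝ) ≤ -Real.log (2 / 3) := by
    have := Real.log_le_sub_one_of_pos (show (0 : ℝ) < 2 / 3 * Real.exp (2 / 5) by positivity)
    have h3 : (2 / 3 : ℝ) * Real.exp (2 / 5) ≤ 1 := by
      have : Real.exp (2 / 5 : ℝ) ≤ 3 / 2 := by
        have h5 : Real.exp (2 / 5 : ℝ) ^ 5 = Real.exp 1 ^ 2 := by
          rw [← Real.exp_nat_mul, ← Real.exp_nat_mul]; norm_num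
        have h6 : Real.exp 1 ^ 2 ≤ (3 / 2) ^ 5 := by
          have := Real.exp_one_lt_d9
          have h7 : (0 : ℝ) < Real.exp 1 := Real.exp_pos _
          nlinarith
        exact le_of_pow_le_pow_left₀ (by norm_num : (5 : ℕ) ≠ 0) (by norm_num) (h5 ▸ h6)
      linarith
    have h4 : Real.log (2 / 3 * Real.exp (2 / 5)) ≤ 0 := Real.log_nonpos (by positivity) h3
    rw [Real.log_mul (by norm_num) (Real.exp_pos _).ne', Real.log_exp] at h4
    linarith
  have e1 : (2 / 3 : ℝ) ^ n = 3 / 2 * (2 / 3 : ℝ) ^ (n + 1) := by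
    rw [pow_succ]; ring
  rw [e1]
  refine mul_le_mul_of_nonneg_left ?_ (by norm_num)
  have e2 : (2 / 3 : ℝ) ^ (n + 1) = Real.exp (((n + 1 : ℕ) : ℝ) * Real.log (2 / 3)) := by
    rw [Real.exp_nat_mul, Real.exp_log (by norm_num)]
  rw [e2, Real.exp_le_exp]
  have h2 : (r : ℝ) ≤ q * (n + 1 : ℕ) := by
    have : r ≤ q * (n + 1) := by omega
    exact_mod_cast this
  have h3 : (q : ℝ) ≤ 33 * d := by
    rw [hq]; push_cast; linarith
  rw [neg_div, le_neg, div_le_iff₀ (by positivity)]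
  have hn0 : (0 : ℝ) ≤ ((n + 1 : ℕ) : ℝ) := by positivity
  have h4 : (r : ℝ) ≤ 33 * d * (n + 1 : ℕ) := h2.trans (mul_le_mul_of_nonneg_right h3 hn0)
  have h5 : ((n + 1 : ℕ) : ℝ) * (2 / 5) ≤ ((n + 1 : ℕ) : ℝ) * -Real.log (2 / 3) :=
    mul_le_mul_of_nonneg_left hl hn0
  nlinarith

end Pool.Agent.Q220.EA
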