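import Pool.Agent.Q220.EA.Fin

/-! Dependence of the Gibbs state of the Edwards-Anderson model on the temperature: finite volume. -/

set_option autoImplicit false

open MeasureTheory Filter
open scoped ENNReal Topology

namespace Pool.Agent.Q220.EA

open Pool.H47EA

variable {d : ℕ}

/-- indicator function of an event -/
noncomputable abbrev one (F : Set (Site d → Bool)) : (Site d → Bool) → ℝ := F.indicator fun _ => (1 : ℝ)

theorem one_unit (F : Set (Site d → Bool)) : Unit01 (one F) := by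
  intro σ
  by_cases h : σ ∈ F
  · rw [one, Set.indicator_of_mem h]; norm_num
  · rw [one, Set.indicator_of_notMem h]; norm_num

theorem Zp_pos (β : ℝ) (J : Coupling d) (Λ : Finset (Site d)) (ω : Site d → Bool) :
    0 < Zp β J Λ ω := by
  unfold Zp
  exact Finset.sum_pos (fun η _ => Real.exp_pos _) Finset.univ_nonempty

theorem gE_congr (β : ℝ) (J : Coupling d) (Λ : Finset (Site d)) (ω : Site d → Bool)
    {f g : (Site d → Bool) → ℝ} (h : ∀ η : Λ → Bool, f (glue Λ η ω) = g (glue Λ η ω)) :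
    gE β J Λ ω f = gE β J Λ ω g := by
  unfold gE
  congr 1
  exact Finset.sum_congr rfl fun η _ => by rw [h η]

theorem gE_smul (β : ℝ) (J : Coupling d) (Λ : Finset (Site d)) (ω : Site d → Bool) (c : ℝ)
    (f : (Site d → Bool) → ℝ) : gE β J Λ ω (fun σ => c * f σ) = c * gE β J Λ ω f := by
  unfold gE
  rw [← mul_div_assoc, Finset.mul_sum]
  congr 1
  exact Finset.sum_congr rfl fun η _ => by ring

theorem gE_add (β : ℝ) (J : Coupling d) (Λ : Finset (Site d)) (ω : Site d → Bool)
    (f g : (Site d → Bool) → ℝ) :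
    gE β J Λ ω (fun σ => f σ + g σ) = gE β J Λ ω f + gE β J Λ ω g := by
  unfold gE
  rw [← add_div, ← Finset.sum_add_distrib]
  congr 1
  exact Finset.sum_congr rfl fun η _ => by ring

theorem gE_sub (β : ℝ) (J : Coupling d) (Λ : Finset (Site d)) (ω : Site d → Bool)
    (f g : (Site d → Bool) → ℝ) :
    gE β J Λ ω (fun σ => f σ - g σ) = gE β J Λ ω f - gE β J Λ ω g := by
  unfold gE
  rw [← sub_div, ← Finset.sum_sub_distrib]
  congr 1
  exact Finset.sum_congr rfl fun η _ => by ring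

theorem gE_sum {ι : Type} (β : ℝ) (J : Coupling d) (Λ : Finset (Site d)) (ω : Site d → Bool)
    (s : Finset ι) (f : ι → (Site d → Bool) → ℝ) :
    gE β J Λ ω (fun σ => ∑ i ∈ s, f i σ) = ∑ i ∈ s, gE β J Λ ω (f i) := by
  classical
  induction s using Finset.induction_on with
  | empty =>
    simp only [Finset.sum_empty]
    unfold gE
    simp
  | insert a s ha ih =>
    rw [Finset.sum_insert ha, ← ih, ← gE_add]
    exact gE_congr β J Λ ω fun η => Finset.sum_insert ha

theorem gE_const (β : ℝ) (J : Coupling d) (Λ : Finset (Site d)) (ω : Site d → Bool) (c : ℝ) :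
    gE β J Λ ω (fun _ => c) = c := (t_BASIC d β J Λ ω).2.1 c

theorem gE_mono (β : ℝ) (J : Coupling d) (Λ : Finset (Site d)) (ω : Site d → Bool)
    {f g : (Site d → Bool) → ℝ} (h : ∀ σ, f σ ≤ g σ) : gE β J Λ ω f ≤ gE β J Λ ω g :=
  (t_BASIC d β J Λ ω).2.2.1 f g fun _ => h _

theorem gE_cons (β : ℝ) (J : Coupling d) {Λ Λ' : Finset (Site d)} (ω : Site d → Bool)
    (h : Λ' ⊆ Λ) (f : (Site d → Bool) → ℝ) :
    gE β J Λ ω f = gE β J Λ ω (fun τ => gE β J Λ' τ f) :=
  (t_BASIC d β J Λ ω).2.2.2.2.2.1 Λ' h f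

/-- a factor which depends only on the outside can be taken out -/
theorem gE_out (β : ℝ) (J : Coupling d) (Λ : Finset (Site d)) (ω : Site d → Bool)
    (f b : (Site d → Bool) → ℝ) (hb : ∀ σ σ' : Site d → Bool, (∀ x, x ∉ Λ → σ x = σ' x) → b σ = b σ') :
    gE β J Λ ω (fun σ => f σ * b σ) = gE β J Λ ω f * b ω := by
  have h : ∀ η : Λ → Bool, b (glue Λ η ω) = b ω := fun η => hb _ _ fun x hx => by
    unfold glue; rw [dif_neg hx]
  rw [gE_congr β J Λ ω (g := fun σ => b ω * f σ) (fun η => by rw [h η]; ring), gE_smul]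
  ring

/-- **covariance in finite volume** -/
theorem cov_fin (β : ℝ) (J : Coupling d) {Λ Λ' : Finset (Site d)} (ω : Site d → Bool)
    (h : Λ' ⊆ Λ) (f b : (Site d → Bool) → ℝ)
    (hb : ∀ σ σ' : Site d → Bool, (∀ x, x ∉ Λ' → σ x = σ' x) → b σ = b σ')
    (hb1 : Unit01 b) {p ε : ℝ} (hp : ∀ τ, |gE β J Λ' τ f - p| ≤ ε) :
    |gE β J Λ ω (fun σ => f σ * b σ) - gE β J Λ ω f * gE β J Λ ω b| ≤ 2 * ε := by
  have hε : 0 ≤ ε := (abs_nonneg _).trans (hp (fun _ => true))
  set g : (Site d → Bool) → ℝ := fun τ => gE β J Λ' τ f with hg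
  have e1 : gE β J Λ ω (fun σ => f σ * b σ) = gE β J Λ ω (fun τ => g τ * b τ) := by
    rw [gE_cons β J ω h]
    exact gE_congr β J Λ ω fun η => gE_out β J Λ' _ f b hb
  have e2 : gE β J Λ ω f = gE β J Λ ω g := gE_cons β J ω h f
  have e3 : gE β J Λ ω (fun τ => g τ * b τ) = gE β J Λ ω (fun τ => (g τ - p) * b τ) +
      p * gE β J Λ ω b := by
    rw [← gE_smul, ← gE_add]
    exact gE_congr β J Λ ω fun η => by ring
  have e4 : gE β J Λ ω g = gE β J Λ ω (fun τ => g τ - p) + p := by
    rw [gE_sub, gE_const]; ring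
  have hb01 := (t_BASIC d β J Λ ω).1 b hb1
  have h1 : |gE β J Λ ω (fun τ => (g τ - p) * b τ)| ≤ ε := by
    rw [abs_le]
    constructor
    · have := gE_mono β J Λ ω (f := fun _ => -ε) (g := fun τ => (g τ - p) * b τ) (fun σ => by
        have h2 := abs_le.1 (hp σ)
        have h3 := hb1 σ
        have h4 : -ε ≤ g σ - p := h2.1
        nlinarith)
      rwa [gE_const] at this
    · have := gE_mono β J Λ ω (f := fun τ => (g τ - p) * b τ) (g := fun _ => ε) (fun σ => by
        have h2 := abs_le.1 (hp σ)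
        have h3 := hb1 σ
        have h4 : g σ - p ≤ ε := h2.2
        nlinarith)
      rwa [gE_const] at this
  have h2 : |gE β J Λ ω (fun τ => g τ - p)| ≤ ε := by
    rw [abs_le]
    constructor
    · have := gE_mono β J Λ ω (f := fun _ => -ε) (g := fun τ => g τ - p) (fun σ =>
        (abs_le.1 (hp σ)).1)
      rwa [gE_const] at this
    · have := gE_mono β J Λ ω (f := fun τ => g τ - p) (g := fun _ => ε) (fun σ =>
        (abs_le.1 (hp σ)).2)
      rwa [gE_const] at this
  rw [e1, e2, e3, e4]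
  have e5 : gE β J Λ ω (fun τ => (g τ - p) * b τ) + p * gE β J Λ ω b -
      (gE β J Λ ω (fun τ => g τ - p) + p) * gE β J Λ ω b =
      gE β J Λ ω (fun τ => (g τ - p) * b τ) - gE β J Λ ω (fun τ => g τ - p) * gE β J Λ ω b := by
    ring
  rw [e5]
  refine (abs_sub _ _).trans ?_
  rw [abs_mul, abs_of_nonneg hb01.1]
  have h3 : |gE β J Λ ω (fun τ => g τ - p)| * gE β J Λ ω b ≤ ε * 1 := by
    exact mul_le_mul h2 hb01.2 hb01.1 hε
  linarith

/-- **derivative in the inverse temperature, finite volume** -/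
theorem deriv_fin (β : ℝ) (J : Coupling d) (Λ : Finset (Site d)) (ω : Site d → Bool)
    (f : (Site d → Bool) → ℝ) :
    HasDerivAt (fun b => gE b J Λ ω f)
      (gE β J Λ ω (fun σ => f σ * ham J Λ σ) - gE β J Λ ω f * gE β J Λ ω (ham J Λ)) β := by
  have hexp : ∀ η : Λ → Bool, HasDerivAt (fun b : ℝ => Real.exp (b * ham J Λ (glue Λ η ω)))
      (Real.exp (β * ham J Λ (glue Λ η ω)) * ham J Λ (glue Λ η ω)) β := by
    intro η
    have := ((hasDerivAt_id β).mul_const (ham J Λ (glue Λ η ω))).exp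
    simpa using this
  have hZ : HasDerivAt (fun b => Zp b J Λ ω)
      (∑ η : Λ → Bool, Real.exp (β * ham J Λ (glue Λ η ω)) * ham J Λ (glue Λ η ω)) β := by
    unfold Zp
    exact HasDerivAt.fun_sum fun η _ => hexp η
  have hN : HasDerivAt (fun b => ∑ η : Λ → Bool,
      Real.exp (b * ham J Λ (glue Λ η ω)) * f (glue Λ η ω))
      (∑ η : Λ → Bool, Real.exp (β * ham J Λ (glue Λ η ω)) * ham J Λ (glue Λ η ω) *
        f (glue Λ η ω)) β :=
    HasDerivAt.fun_sum fun η _ => (hexp η).mul_const _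
  have hZ0 := (Zp_pos β J Λ ω).ne'
  have h := hN.fun_div hZ hZ0
  have e : (fun b => gE b J Λ ω f) = fun b => (∑ η : Λ → Bool,
      Real.exp (b * ham J Λ (glue Λ η ω)) * f (glue Λ η ω)) / Zp b J Λ ω := rfl
  rw [e]
  refine HasDerivAt.congr_deriv h ?_
  unfold gE
  have e1 : ∑ η : Λ → Bool, Real.exp (β * ham J Λ (glue Λ η ω)) *
      (f (glue Λ η ω) * ham J Λ (glue Λ η ω)) =
      ∑ η : Λ → Bool, Real.exp (β * ham J Λ (glue Λ η ω)) * ham J Λ (glue Λ η ω) *
        f (glue Λ η ω) := Finset.sum_congr rfl fun η _ => by ring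
  rw [e1]
  field_simp

/-! ### edges -/

/-- the sign of the coupling of the edge `e` (`0` if `e` is not an edge) -/
noncomputable def jj (J : Coupling d) : Sym2 (Site d) → ℝ :=
  Sym2.lift ⟨fun x y => Jc J x y, fun x y => Jc_comm J x y⟩

/-- the spins at the two ends of `e` agree -/
def Eq2 (e : Sym2 (Site d)) : Set (Site d → Bool) :=
  {σ | Sym2.lift ⟨fun x y => σ x = σ y, fun x y => propext ⟨Eq.symm, Eq.symm⟩⟩ e}

theorem jj_mk (J : Coupling d) (x y : Site d) : jj J s(x, y) = Jc J x y := rfl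

theorem mem_Eq2 (x y : Site d) (σ : Site d → Bool) : σ ∈ Eq2 s(x, y) ↔ σ x = σ y := Iff.rfl

theorem jj_abs (J : Coupling d) (e : Sym2 (Site d)) : |jj J e| ≤ 1 := by
  induction e using Sym2.ind with
  | _ x y =>
    rw [jj_mk]
    unfold Jc
    split_ifs with h
    · unfold sg; split_ifs <;> norm_num
    · norm_num

theorem jj_zero (J : Coupling d) (e : Sym2 (Site d)) (he : e ∉ (lat d).edgeSet) : jj J e = 0 := by
  induction e using Sym2.ind with
  | _ x y =>
    rw [jj_mk]
    unfold Jc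
    rw [dif_neg]
    exact he

theorem bond_eq (J : Coupling d) (σ : Site d → Bool) (e : Sym2 (Site d)) :
    bond J σ e = jj J e * (2 * one (Eq2 e) σ - 1) := by
  induction e using Sym2.ind with
  | _ x y =>
    rw [jj_mk]
    show Jc J x y * sg (σ x) * sg (σ y) = _
    rw [mul_assoc]
    congr 1
    by_cases h : σ ∈ Eq2 s(x, y)
    · rw [one, Set.indicator_of_mem h]
      rw [mem_Eq2] at h
      rw [h]
      unfold sg; split_ifs <;> norm_num
    · rw [one, Set.indicator_of_notMem h]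
      rw [mem_Eq2] at h
      unfold sg
      cases hx : σ x <;> cases hy : σ y <;> simp_all

theorem meas_Eq2 (e : Sym2 (Site d)) : MeasurableSet (Eq2 e) := by
  induction e using Sym2.ind with
  | _ x y =>
    have : Eq2 s(x, y) = {σ : Site d → Bool | σ x = σ y} := rfl
    rw [this]
    exact measurableSet_eq_fun (measurable_pi_apply x) (measurable_pi_apply y)

theorem local_Eq2 (e : Sym2 (Site d)) (σ σ' : Site d → Bool) (h : ∀ x ∈ e, σ x = σ' x) :
    σ ∈ Eq2 e ↔ σ' ∈ Eq2 e := by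
  induction e using Sym2.ind with
  | _ x y =>
    rw [mem_Eq2, mem_Eq2, h x (Sym2.mem_mk_left _ _), h y (Sym2.mem_mk_right _ _)]

/-- the covariance of the event `F` and the term `J_e σ_x σ_y` of the bond `e` -/
theorem cov_bond (β : ℝ) (J : Coupling d) (Λ : Finset (Site d)) (ω : Site d → Bool)
    (F : Set (Site d → Bool)) (e : Sym2 (Site d)) :
    gE β J Λ ω (fun σ => one F σ * bond J σ e) - gE β J Λ ω (one F) * gE β J Λ ω (fun σ => bond J σ e) =
      2 * jj J e * (gE β J Λ ω (fun σ => one F σ * one (Eq2 e) σ) -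
        gE β J Λ ω (one F) * gE β J Λ ω (one (Eq2 e))) := by
  have h1 : gE β J Λ ω (fun σ => one F σ * bond J σ e) =
      2 * jj J e * gE β J Λ ω (fun σ => one F σ * one (Eq2 e) σ) - jj J e * gE β J Λ ω (one F) := by
    rw [← gE_smul, ← gE_smul, ← gE_sub]
    exact gE_congr β J Λ ω fun η => by rw [bond_eq]; ring
  have h2 : gE β J Λ ω (fun σ => bond J σ e) =
      2 * jj J e * gE β J Λ ω (one (Eq2 e)) - jj J e := by
    have : gE β J Λ ω (fun σ => 2 * jj J e * one (Eq2 e) σ - jj J e) =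
        2 * jj J e * gE β J Λ ω (one (Eq2 e)) - jj J e := by
      rw [gE_sub, gE_smul, gE_const]
    rw [← this]
    exact gE_congr β J Λ ω fun η => by rw [bond_eq]; ring
  rw [h1, h2]
  ring

/-- the derivative as a sum over the edges -/
theorem deriv_sum (β : ℝ) (J : Coupling d) (Λ : Finset (Site d)) (ω : Site d → Bool)
    (F : Set (Site d → Bool)) :
    HasDerivAt (fun b => gE b J Λ ω (one F))
      (∑ e ∈ edgesOf Λ, 2 * jj J e * (gE β J Λ ω (fun σ => one F σ * one (Eq2 e) σ) -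
        gE β J Λ ω (one F) * gE β J Λ ω (one (Eq2 e)))) β := by
  have h := deriv_fin β J Λ ω (one F)
  refine HasDerivAt.congr_deriv h ?_
  rw [Finset.sum_congr rfl fun e _ => (cov_bond β J Λ ω F e).symm, Finset.sum_sub_distrib,
    ← Finset.mul_sum, ← gE_sum, ← gE_sum]
  congr 1
  refine gE_congr β J Λ ω fun η => ?_
  unfold ham
  rw [Finset.mul_sum]

end Pool.Agent.Q220.EA
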