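import Pool.Agent.Q220.EA.Temp1

/-! Dependence of the Gibbs state of the Edwards-Anderson model on the temperature: summation over
the edges. -/

set_option autoImplicit false

open MeasureTheory Filter
open scoped ENNReal Topology

namespace Pool.Agent.Q220.EA

open Pool.H47EA

variable {d : ℕ}

theorem cube_mono {m n : ℕ} (h : m ≤ n) : cube d m ⊆ cube d n := by
  intro x hx
  rw [mem_cube] at hx ⊢
  exact fun i => (hx i).trans (by exact_mod_cast h)

theorem card_edges (n : ℕ) : (edgesOf (cube d n)).card ≤ (2 * n + 1) ^ d * (2 * d) := by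
  unfold edgesOf
  refine Finset.card_biUnion_le.trans ?_
  rw [← card_cube d n, ← smul_eq_mul]
  exact Finset.sum_le_card_nsmul _ _ _ fun x _ =>
    Finset.card_image_le.trans (InfAux.nbr_card x)

/-- some cube of the sequence touches `e` -/
def HasLev (m : ℕ) (e : Sym2 (Site d)) : Prop := ∃ r, e ∈ edgesOf (cube d (m + r))

open Classical in
/-- the first cube which touches `e` -/
noncomputable def lev (m : ℕ) (e : Sym2 (Site d)) : ℕ :=
  if h : HasLev m e then Nat.find h else 0

open Classical in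
/-- the weight of an edge -/
noncomputable def ww (a : ℝ) (m : ℕ) (e : Sym2 (Site d)) : ℝ :=
  if HasLev m e then a ^ lev m e else 0

theorem lev_mem {m : ℕ} {e : Sym2 (Site d)} (h : HasLev m e) : e ∈ edgesOf (cube d (m + lev m e)) := by
  classical
  unfold lev
  rw [dif_pos h]
  exact Nat.find_spec h

theorem lev_min {m r : ℕ} {e : Sym2 (Site d)} (h : HasLev m e) (hr : r < lev m e) :
    e ∉ edgesOf (cube d (m + r)) := by
  classical
  unfold lev at hr
  rw [dif_pos h] at hr
  exact Nat.find_min h hr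

theorem ww_nonneg {a : ℝ} (ha : 0 ≤ a) (m : ℕ) (e : Sym2 (Site d)) : 0 ≤ ww a m e := by
  unfold ww
  split_ifs
  · positivity
  · exact le_rfl

theorem not_lev_jj {m : ℕ} {e : Sym2 (Site d)} (J : Coupling d) (h : ¬ HasLev m e) : jj J e = 0 := by
  apply jj_zero
  intro he
  apply h
  induction e using Sym2.ind with
  | _ x y =>
    have hxy : dist1 x y = 1 := he
    refine ⟨∑ i, (x i).natAbs, ?_⟩
    rw [Basic.mem_edgesOf]
    refine ⟨x, ?_, y, hxy, rfl⟩
    rw [mem_cube]
    intro i
    have h1 : (x i).natAbs ≤ ∑ i, (x i).natAbs :=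
      Finset.single_le_sum (f := fun i => (x i).natAbs) (fun _ _ => Nat.zero_le _)
        (Finset.mem_univ i)
    rw [Int.abs_eq_natAbs]
    exact_mod_cast (by omega : (x i).natAbs ≤ m + ∑ i, (x i).natAbs)

/-- the weights are summable -/
theorem summable_ww {a : ℝ} (ha0 : 0 < a) (ha1 : a < 1) (m : ℕ) :
    Summable (fun e : Sym2 (Site d) => ww a m e) := by
  classical
  have hs : Summable (fun r : ℕ => ((edgesOf (cube d (m + r))).card : ℝ) * a ^ r) := by
    have h1 : ∀ r : ℕ, ((edgesOf (cube d (m + r))).card : ℝ) * a ^ r ≤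
        ((2 * m + 3 : ℕ) : ℝ) ^ d * (2 * d) * (((r : ℝ) + 1) ^ d * a ^ r) := by
      intro r
      have h2 := card_edges (d := d) (m + r)
      have h3 : (2 * (m + r) + 1) ≤ (2 * m + 3) * (r + 1) := by nlinarith
      have h4 : (2 * (m + r) + 1) ^ d * (2 * d) ≤ ((2 * m + 3) * (r + 1)) ^ d * (2 * d) :=
        Nat.mul_le_mul_right _ (Nat.pow_le_pow_left h3 d)
      have h5 : ((edgesOf (cube d (m + r))).card : ℝ) ≤
          ((((2 * m + 3) * (r + 1)) ^ d * (2 * d) : ℕ) : ℝ) := by exact_mod_cast h2.trans h4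
      calc ((edgesOf (cube d (m + r))).card : ℝ) * a ^ r
          ≤ ((((2 * m + 3) * (r + 1)) ^ d * (2 * d) : ℕ) : ℝ) * a ^ r := by gcongr
        _ = _ := by push_cast; rw [mul_pow]; ring
    refine Summable.of_nonneg_of_le (fun r => by positivity) h1 (Summable.mul_left _ ?_)
    have h6 : Summable (fun r : ℕ => ((r : ℝ)) ^ d * a ^ r) :=
      summable_pow_mul_geometric_of_norm_lt_one d (by rw [Real.norm_eq_abs, abs_of_pos ha0]; exact ha1)
    have h7 := (summable_nat_add_iff 1).2 h6
    have h8 : (fun r : ℕ => ((r : ℝ) + 1) ^ d * a ^ r) =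
        fun r : ℕ => a⁻¹ * (((r + 1 : ℕ) : ℝ) ^ d * a ^ (r + 1)) := by
      funext r
      push_cast
      rw [pow_succ]
      field_simp
    rw [h8]
    exact h7.mul_left _
  refine summable_of_sum_le (c := ∑' r : ℕ, ((edgesOf (cube d (m + r))).card : ℝ) * a ^ r)
    (fun e => ww_nonneg ha0.le m e) fun S => ?_
  set R : ℕ := S.sup (fun e => lev m e) + 1 with hR
  have h1 : ∀ e ∈ S, ww a m e ≤ ∑ r ∈ Finset.range R,
      (if e ∈ edgesOf (cube d (m + r)) then a ^ r else 0) := by
    intro e he
    have hn : ∀ r ∈ Finset.range R, (0 : ℝ) ≤ (if e ∈ edgesOf (cube d (m + r)) then a ^ r else 0) := by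
      intro r _
      split_ifs
      · positivity
      · exact le_rfl
    by_cases hl : HasLev m e
    · have hr : lev m e ∈ Finset.range R := by
        rw [Finset.mem_range, hR]
        exact Nat.lt_succ_of_le (Finset.le_sup (f := fun e => lev m e) he)
      have := Finset.single_le_sum hn hr
      rw [if_pos (lev_mem hl)] at this
      unfold ww
      rw [if_pos hl]
      exact this
    · unfold ww
      rw [if_neg hl]
      exact Finset.sum_nonneg hn
  calc ∑ e ∈ S, ww a m e ≤ ∑ e ∈ S, ∑ r ∈ Finset.range R,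
        (if e ∈ edgesOf (cube d (m + r)) then a ^ r else 0) := Finset.sum_le_sum h1
    _ = ∑ r ∈ Finset.range R, ∑ e ∈ S, (if e ∈ edgesOf (cube d (m + r)) then a ^ r else 0) :=
        Finset.sum_comm
    _ ≤ ∑ r ∈ Finset.range R, ((edgesOf (cube d (m + r))).card : ℝ) * a ^ r := by
        refine Finset.sum_le_sum fun r _ => ?_
        rw [← Finset.sum_filter, Finset.sum_const, nsmul_eq_mul]
        have : (S.filter (fun e => e ∈ edgesOf (cube d (m + r)))).card ≤
            (edgesOf (cube d (m + r))).card :=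
          Finset.card_le_card fun e he => (Finset.mem_filter.1 he).2
        gcongr
    _ ≤ _ := hs.sum_le_tsum _ fun r _ => by positivity

theorem exp_pow (d r : ℕ) :
    Real.exp (-(r : ℝ) / (100 * d)) = Real.exp (-1 / (100 * d)) ^ r := by
  rw [← Real.exp_nat_mul]
  congr 1
  ring

/-- the finite volume measures converge exponentially fast to `π β`, for all `β ∈ I` -/
def Conv (J : Coupling d) (I : Set ℝ) (π : ℝ → Measure (Site d → Bool)) (K : ℕ → ℝ) (a : ℝ) : Prop :=
  ∀ β ∈ I, ∀ (m r : ℕ) (F : Set (Site d → Bool)), MeasurableSet F →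
    (∀ σ σ' : Site d → Bool, (∀ x ∈ cube d m, σ x = σ' x) → (σ ∈ F ↔ σ' ∈ F)) →
    ∀ (Λ : Finset (Site d)) (ω : Site d → Bool), cube d (m + r) ⊆ Λ →
      |gE β J Λ ω (one F) - (π β F).toReal| ≤ K m * a ^ r

/-- the constant boundary condition -/
def om : Site d → Bool := fun _ => true

/-- `E_R f`, the expectation in the cube of radius `m + R` -/
noncomputable def ER (J : Coupling d) (m R : ℕ) (β : ℝ) (f : (Site d → Bool) → ℝ) : ℝ :=
  gE β J (cube d (m + R)) om f

open Classical in
/-- the term of the edge `e` in the finite volume derivative -/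
noncomputable def covF (J : Coupling d) (m : ℕ) (F : Set (Site d → Bool)) (R : ℕ) (β : ℝ)
    (e : Sym2 (Site d)) : ℝ :=
  if e ∈ edgesOf (cube d (m + R)) then
    2 * jj J e * (ER J m R β (fun σ => one F σ * one (Eq2 e) σ) -
      ER J m R β (one F) * ER J m R β (one (Eq2 e))) else 0

/-- the term of the edge `e` in the infinite volume derivative -/
noncomputable def covI (J : Coupling d) (π : ℝ → Measure (Site d → Bool))
    (F : Set (Site d → Bool)) (β : ℝ) (e : Sym2 (Site d)) : ℝ :=
  2 * jj J e * ((π β (F ∩ Eq2 e)).toReal - (π β F).toReal * (π β (Eq2 e)).toReal)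

theorem one_mul_one (F B : Set (Site d → Bool)) :
    (fun σ => one F σ * one B σ) = one (F ∩ B) := by
  funext σ
  unfold one
  by_cases h1 : σ ∈ F <;> by_cases h2 : σ ∈ B
  · rw [Set.indicator_of_mem h1, Set.indicator_of_mem h2,
      Set.indicator_of_mem (show σ ∈ F ∩ B from ⟨h1, h2⟩)]; norm_num
  · rw [Set.indicator_of_mem h1, Set.indicator_of_notMem h2,
      Set.indicator_of_notMem (fun h => h2 h.2)]; norm_num
  · rw [Set.indicator_of_notMem h1, Set.indicator_of_mem h2,
      Set.indicator_of_notMem (fun h => h1 h.1)]; norm_num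
  · rw [Set.indicator_of_notMem h1, Set.indicator_of_notMem h2,
      Set.indicator_of_notMem (fun h => h1 h.1)]; norm_num

section main

variable {J : Coupling d} {I : Set ℝ} {π : ℝ → Measure (Site d → Bool)} {K : ℕ → ℝ} {a : ℝ}
  (ha0 : 0 < a) (ha1 : a < 1) (hK : ∀ m, 0 ≤ K m) (hc : Conv J I π K a)
  (hprob : ∀ β ∈ I, IsProbabilityMeasure (π β))
  {m : ℕ} {F : Set (Site d → Bool)} (hF : MeasurableSet F)
  (hFl : ∀ σ σ' : Site d → Bool, (∀ x ∈ cube d m, σ x = σ' x) → (σ ∈ F ↔ σ' ∈ F))

include ha0 hK hc hF hFl in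
theorem covF_le {β : ℝ} (hβ : β ∈ I) (R : ℕ) (e : Sym2 (Site d)) :
    |covF J m F R β e| ≤ (4 * K m / a + 2) * ww a m e := by
  classical
  have hww := ww_nonneg ha0.le m e
  have hC : 0 ≤ 4 * K m / a + 2 := by have := hK m; positivity
  unfold covF
  split_ifs with he
  swap
  · rw [abs_zero]; positivity
  have hl : HasLev m e := ⟨R, he⟩
  have hlR : lev m e ≤ R := by
    by_contra hcon
    exact lev_min hl (not_le.1 hcon) he
  have hw : ww a m e = a ^ lev m e := by unfold ww; rw [if_pos hl]
  have hj := jj_abs J e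
  rw [abs_mul, abs_mul, abs_of_pos (by norm_num : (0 : ℝ) < 2)]
  have hj2 : 2 * |jj J e| ≤ 2 := by linarith
  rcases Nat.eq_zero_or_pos (lev m e) with h0 | h0
  · rw [hw, h0, pow_zero, mul_one]
    have h1 := gE_indicator_mem β J (cube d (m + R)) om (fun σ => one F σ * one (Eq2 e) σ)
      (by rw [one_mul_one]; exact one_unit _)
    have h2 := gE_indicator_mem β J (cube d (m + R)) om (one F) (one_unit _)
    have h3 := gE_indicator_mem β J (cube d (m + R)) om (one (Eq2 e)) (one_unit _)
    have h4 : |ER J m R β (fun σ => one F σ * one (Eq2 e) σ) -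
        ER J m R β (one F) * ER J m R β (one (Eq2 e))| ≤ 1 := by
      unfold ER
      rw [abs_le]
      constructor
      · nlinarith [mul_le_mul h2.2 h3.2 h3.1 zero_le_one]
      · nlinarith [mul_nonneg h2.1 h3.1]
    have h5 : 0 ≤ 4 * K m / a := by have := hK m; positivity
    calc 2 * |jj J e| * |_| ≤ 2 * 1 := mul_le_mul hj2 h4 (abs_nonneg _) (by norm_num)
      _ ≤ _ := by linarith
  · obtain ⟨s, hs⟩ := Nat.exists_eq_add_of_le' h0
    have hout : e ∉ edgesOf (cube d (m + s)) := lev_min hl (by omega)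
    have hb : ∀ σ σ' : Site d → Bool, (∀ x, x ∉ cube d (m + s) → σ x = σ' x) →
        one (Eq2 e) σ = one (Eq2 e) σ' := by
      intro σ σ' h
      have h1 : σ ∈ Eq2 e ↔ σ' ∈ Eq2 e := by
        apply local_Eq2
        intro x hx
        apply h
        intro hxc
        apply hout
        obtain ⟨u, hu, v, huv, rfl⟩ := Basic.mem_edgesOf.1 he
        rw [Basic.mem_edgesOf]
        rcases Sym2.mem_iff.1 hx with rfl | rfl
        · exact ⟨x, hxc, v, huv, rfl⟩
        · exact ⟨x, hxc, u, by rw [Basic.dist1_comm]; exact huv, Sym2.eq_swap⟩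
      unfold one
      by_cases h2 : σ ∈ Eq2 e
      · rw [Set.indicator_of_mem h2, Set.indicator_of_mem (h1.1 h2)]
      · rw [Set.indicator_of_notMem h2, Set.indicator_of_notMem (fun h3 => h2 (h1.2 h3))]
    have h4 := cov_fin β J om (cube_mono (d := d) (show m + s ≤ m + R by omega)) (one F)
      (one (Eq2 e)) hb (one_unit _) (p := (π β F).toReal) (ε := K m * a ^ s)
      (fun τ => hc β hβ m s F hF hFl _ τ (Finset.Subset.refl _))
    rw [hw, hs]
    have h5 : 2 * |jj J e| * |ER J m R β (fun σ => one F σ * one (Eq2 e) σ) -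
        ER J m R β (one F) * ER J m R β (one (Eq2 e))| ≤ 2 * (2 * (K m * a ^ s)) :=
      mul_le_mul hj2 h4 (abs_nonneg _) (by norm_num)
    refine h5.trans ?_
    have h6 : 4 * K m / a * a ^ (s + 1) = 4 * K m * a ^ s := by
      rw [pow_succ]; field_simp
    rw [add_mul, h6]
    have h7 : (0 : ℝ) ≤ 2 * a ^ (s + 1) := by positivity
    linarith

include hc hprob hF hFl in
theorem covF_sub {β : ℝ} (hβ : β ∈ I) (R : ℕ) (e : Sym2 (Site d)) (hl : HasLev m e)
    (hR : lev m e + 1 ≤ R) :
    |covF J m F R β e - covI J π F β e| ≤ 6 * K (m + lev m e + 1) * a ^ (R - (lev m e + 1)) := by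
  classical
  have := hprob β hβ
  have he : e ∈ edgesOf (cube d (m + R)) :=
    Basic.edgesOf_mono (cube_mono (by omega)) (lev_mem hl)
  set m' := m + lev m e + 1 with hm'
  set δ := K m' * a ^ (R - (lev m e + 1)) with hδ
  have hmr : m' + (R - (lev m e + 1)) = m + R := by omega
  have hsub : cube d (m' + (R - (lev m e + 1))) ⊆ cube d (m + R) := by rw [hmr]
  have hEl : ∀ σ σ' : Site d → Bool, (∀ x ∈ cube d m', σ x = σ' x) → (σ ∈ Eq2 e ↔ σ' ∈ Eq2 e) := by
    intro σ σ' h
    apply local_Eq2
    intro x hx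
    apply h
    obtain ⟨u, hu, v, huv, huve⟩ := Basic.mem_edgesOf.1 (lev_mem hl)
    rw [← huve] at hx
    have hu' : ∀ i, |u i| ≤ ((m + lev m e : ℕ) : ℤ) := mem_cube.1 hu
    have huv' : ∀ i, (u i - v i).natAbs ≤ 1 := by
      intro i
      rw [← huv]
      unfold dist1
      exact Finset.single_le_sum (f := fun i => (u i - v i).natAbs) (fun _ _ => Nat.zero_le _)
        (Finset.mem_univ i)
    rw [mem_cube]
    intro i
    have h1 := abs_le.1 (hu' i)
    have h2 := huv' i
    rw [abs_le]
    rcases Sym2.mem_iff.1 hx with rfl | rfl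
    · push_cast [hm'] at h1 ⊢; omega
    · push_cast [hm'] at h1 ⊢; omega
  have hFl' : ∀ σ σ' : Site d → Bool, (∀ x ∈ cube d m', σ x = σ' x) → (σ ∈ F ↔ σ' ∈ F) :=
    fun σ σ' h => hFl σ σ' fun x hx => h x (cube_mono (by omega) hx)
  have h1 := hc β hβ m' (R - (lev m e + 1)) F hF hFl' (cube d (m + R)) om hsub
  have h2 := hc β hβ m' (R - (lev m e + 1)) (Eq2 e) (meas_Eq2 e) hEl (cube d (m + R)) om hsub
  have h3 := hc β hβ m' (R - (lev m e + 1)) (F ∩ Eq2 e) (hF.inter (meas_Eq2 e))
    (fun σ σ' h => and_congr (hFl' σ σ' h) (hEl σ σ' h)) (cube d (m + R)) om hsub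
  rw [← one_mul_one] at h3
  have hE1 := gE_indicator_mem β J (cube d (m + R)) om (one F) (one_unit _)
  have hE2 : (π β (Eq2 e)).toReal ≤ 1 := by
    have := prob_le_one (μ := π β) (s := Eq2 e)
    exact ENNReal.toReal_mono (by simp) this
  have hE3 : 0 ≤ (π β (Eq2 e)).toReal := ENNReal.toReal_nonneg
  unfold covF covI
  rw [if_pos he, ← mul_sub, abs_mul, abs_mul, abs_of_pos (by norm_num : (0 : ℝ) < 2)]
  have hj := jj_abs J e
  have hj2 : 2 * |jj J e| ≤ 2 := by linarith
  have h4 : |(ER J m R β (fun σ => one F σ * one (Eq2 e) σ) -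
      ER J m R β (one F) * ER J m R β (one (Eq2 e))) -
      ((π β (F ∩ Eq2 e)).toReal - (π β F).toReal * (π β (Eq2 e)).toReal)| ≤ 3 * δ := by
    unfold ER
    set A := gE β J (cube d (m + R)) om (fun σ => one F σ * one (Eq2 e) σ)
    set B := gE β J (cube d (m + R)) om (one F)
    set C := gE β J (cube d (m + R)) om (one (Eq2 e))
    set A' := (π β (F ∩ Eq2 e)).toReal
    set B' := (π β F).toReal
    set C' := (π β (Eq2 e)).toReal
    have e1 : A - B * C - (A' - B' * C') = (A - A') - B * (C - C') - (B - B') * C' := by ring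
    rw [e1]
    have h5 : |B * (C - C')| ≤ δ := by
      rw [abs_mul, abs_of_nonneg hE1.1]
      calc B * |C - C'| ≤ 1 * δ := mul_le_mul hE1.2 h2 (abs_nonneg _) zero_le_one
        _ = δ := one_mul _
    have h6 : |(B - B') * C'| ≤ δ := by
      rw [abs_mul, abs_of_nonneg hE3]
      calc |B - B'| * C' ≤ δ * 1 := mul_le_mul h1 hE2 hE3 ((abs_nonneg _).trans h1)
        _ = δ := mul_one _
    calc |A - A' - B * (C - C') - (B - B') * C'| ≤ |A - A' - B * (C - C')| + |(B - B') * C'| :=
          abs_sub _ _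
      _ ≤ |A - A'| + |B * (C - C')| + |(B - B') * C'| := by gcongr; exact abs_sub _ _
      _ ≤ 3 * δ := by linarith
  calc 2 * |jj J e| * |_| ≤ 2 * (3 * δ) := mul_le_mul hj2 h4 (abs_nonneg _) (by norm_num)
    _ = _ := by rw [hδ]; ring

include ha0 ha1 in
theorem tend_pow (L : ℕ) (c : ℝ) : Tendsto (fun R : ℕ => c * a ^ (R - L)) atTop (𝓝 0) := by
  have h1 : Tendsto (fun n : ℕ => a ^ n) atTop (𝓝 0) := tendsto_pow_atTop_nhds_zero_of_lt_one ha0.le ha1
  have h2 := (h1.comp (tendsto_sub_atTop_nat L)).const_mul c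
  simpa using h2

include ha0 ha1 hK hc hprob hF hFl in
theorem covI_le {β : ℝ} (hβ : β ∈ I) (e : Sym2 (Site d)) :
    |covI J π F β e| ≤ (4 * K m / a + 2) * ww a m e := by
  classical
  by_cases hl : HasLev m e
  · have h1 : Tendsto (fun R => covF J m F R β e) atTop (𝓝 (covI J π F β e)) := by
      rw [tendsto_iff_norm_sub_tendsto_zero]
      refine squeeze_zero' (Eventually.of_forall fun _ => norm_nonneg _) ?_
        (tend_pow (a := a) ha0 ha1 (lev m e + 1) (6 * K (m + lev m e + 1)))
      filter_upwards [eventually_ge_atTop (lev m e + 1)] with R hR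
      exact covF_sub hc hprob hF hFl hβ R e hl hR
    refine le_of_tendsto h1.abs (Eventually.of_forall fun R => ?_)
    exact covF_le ha0 hK hc hF hFl hβ R e
  · unfold covI ww
    rw [not_lev_jj J hl, if_neg hl]
    simp

open Classical in
/-- bound for the difference of the terms -/
noncomputable def dd (K : ℕ → ℝ) (a : ℝ) (m R : ℕ) (e : Sym2 (Site d)) : ℝ :=
  if lev m e + 1 ≤ R then min (2 * (4 * K m / a + 2) * ww a m e)
    (6 * K (m + lev m e + 1) * a ^ (R - (lev m e + 1))) else 2 * (4 * K m / a + 2) * ww a m e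

include ha0 ha1 hK hc hprob hF hFl in
theorem sub_le_dd {β : ℝ} (hβ : β ∈ I) (R : ℕ) (e : Sym2 (Site d)) :
    |covF J m F R β e - covI J π F β e| ≤ dd K a m R e := by
  classical
  have h1 := covF_le ha0 hK hc hF hFl hβ R e
  have h2 := covI_le ha0 ha1 hK hc hprob hF hFl hβ e
  have h3 : |covF J m F R β e - covI J π F β e| ≤ 2 * (4 * K m / a + 2) * ww a m e := by
    refine (abs_sub _ _).trans ?_
    linarith
  unfold dd
  split_ifs with hR
  · by_cases hl : HasLev m e
    · exact le_min h3 (covF_sub hc hprob hF hFl hβ R e hl hR)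
    · have hw : ww a m e = 0 := by unfold ww; rw [if_neg hl]
      rw [hw, mul_zero] at h3
      refine le_min (by rw [hw, mul_zero]; exact h3) (h3.trans ?_)
      have := hK (m + lev m e + 1)
      positivity
  · exact h3

include ha0 ha1 hK in
theorem tend_dd : Tendsto (fun R : ℕ => ∑' e : Sym2 (Site d), dd K a m R e) atTop (𝓝 0) := by
  classical
  have hC : 0 ≤ 2 * (4 * K m / a + 2) := by have := hK m; positivity
  have h0 : ∀ R e, 0 ≤ dd (d := d) K a m R e := by
    intro R e
    have h1 := mul_nonneg hC (ww_nonneg ha0.le m e)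
    have h2 : 0 ≤ 6 * K (m + lev m e + 1) * a ^ (R - (lev m e + 1)) := by
      have := hK (m + lev m e + 1); positivity
    unfold dd
    split_ifs
    · exact le_min h1 h2
    · exact h1
  have h := tendsto_tsum_of_dominated_convergence (𝓕 := atTop) (f := fun R e => dd (d := d) K a m R e)
    (g := fun _ => 0) (bound := fun e : Sym2 (Site d) => 2 * (4 * K m / a + 2) * ww a m e)
    ((summable_ww ha0 ha1 m).mul_left _) (fun e => by
      refine squeeze_zero' (Eventually.of_forall fun R => h0 R e) ?_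
        (tend_pow (a := a) ha0 ha1 (lev m e + 1) (6 * K (m + lev m e + 1)))
      filter_upwards [eventually_ge_atTop (lev m e + 1)] with R hR
      unfold dd
      rw [if_pos hR]
      exact min_le_right _ _)
    (Eventually.of_forall fun R e => by
      rw [Real.norm_eq_abs, abs_of_nonneg (h0 R e)]
      unfold dd
      split_ifs
      · exact min_le_left _ _
      · exact le_rfl)
  simpa using h

include ha0 ha1 hK hc hprob hF hFl in
theorem unif : TendstoUniformlyOn (fun (R : ℕ) (β : ℝ) => ∑' e, covF J m F R β e)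
    (fun β => ∑' e, covI J π F β e) atTop I := by
  classical
  rw [Metric.tendstoUniformlyOn_iff]
  intro ε hε
  have h := tend_dd (d := d) (m := m) ha0 ha1 hK
  filter_upwards [h.eventually (gt_mem_nhds hε)] with R hR β hβ
  have hsw := (summable_ww (d := d) ha0 ha1 m).mul_left (4 * K m / a + 2)
  have s1 : Summable (fun e => covF J m F R β e) :=
    Summable.of_norm_bounded hsw fun e => covF_le ha0 hK hc hF hFl hβ R e
  have s2 : Summable (fun e => covI J π F β e) :=
    Summable.of_norm_bounded hsw fun e => covI_le ha0 ha1 hK hc hprob hF hFl hβ e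
  rw [dist_comm, Real.dist_eq, ← s1.tsum_sub s2]
  have s3 : Summable (fun e : Sym2 (Site d) => dd K a m R e) := by
    have hsw2 := (summable_ww (d := d) ha0 ha1 m).mul_left (2 * (4 * K m / a + 2))
    refine Summable.of_norm_bounded hsw2 fun e => ?_
    have h0 : 0 ≤ dd K a m R e := (abs_nonneg _).trans (sub_le_dd ha0 ha1 hK hc hprob hF hFl hβ R e)
    rw [Real.norm_eq_abs, abs_of_nonneg h0]
    unfold dd
    split_ifs
    · exact min_le_left _ _
    · exact le_rfl
  have h1 : ‖∑' e, (covF J m F R β e - covI J π F β e)‖ ≤ ∑' e, dd K a m R e :=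
    tsum_of_norm_bounded s3.hasSum fun e => sub_le_dd ha0 ha1 hK hc hprob hF hFl hβ R e
  exact h1.trans_lt hR

/-- the finite volume derivative -/
theorem deriv_R (R : ℕ) (β : ℝ) : HasDerivAt (fun b => ER J m R b (one F))
    (∑' e, covF J m F R β e) β := by
  classical
  have h := deriv_sum β J (cube d (m + R)) om F
  refine HasDerivAt.congr_deriv h ?_
  rw [tsum_eq_sum (s := edgesOf (cube d (m + R))) (fun e he => by unfold covF; rw [if_neg he])]
  refine Finset.sum_congr rfl fun e he => ?_
  unfold covF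
  rw [if_pos he]
  rfl

include ha0 ha1 hc hF hFl in
theorem tend_ER {β : ℝ} (hβ : β ∈ I) :
    Tendsto (fun R => ER J m R β (one F)) atTop (𝓝 (π β F).toReal) := by
  rw [tendsto_iff_norm_sub_tendsto_zero]
  refine squeeze_zero (fun _ => norm_nonneg _) (fun R => ?_) (tend_pow (a := a) ha0 ha1 0 (K m))
  have := hc β hβ m R F hF hFl (cube d (m + R)) om (Finset.Subset.refl _)
  simpa [ER] using this

include ha0 ha1 hK hc hprob hF hFl in
/-- **derivative in infinite volume** -/
theorem deriv_inf (hI : IsOpen I) {β : ℝ} (hβ : β ∈ I) :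
    HasDerivAt (fun b => (π b F).toReal) (∑' e, covI J π F β e) β :=
  hasDerivAt_of_tendstoUniformlyOn hI (unif ha0 ha1 hK hc hprob hF hFl)
    (Eventually.of_forall fun R β _ => deriv_R R β)
    (fun β hβ => tend_ER ha0 ha1 hc hF hFl hβ) hβ

include ha0 ha1 hK hc hprob hF hFl in
theorem deriv_bound {β : ℝ} (hβ : β ∈ I) :
    Summable (fun e => |covI J π F β e|) ∧
      ∑' e, |covI J π F β e| ≤ (4 * K m / a + 2) * ∑' e : Sym2 (Site d), ww a m e := by
  have hsw := (summable_ww (d := d) ha0 ha1 m).mul_left (4 * K m / a + 2)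
  have h1 : Summable (fun e => |covI J π F β e|) :=
    Summable.of_nonneg_of_le (fun _ => abs_nonneg _)
      (fun e => covI_le ha0 ha1 hK hc hprob hF hFl hβ e) hsw
  refine ⟨h1, ?_⟩
  rw [← tsum_mul_left]
  exact h1.tsum_le_tsum (fun e => covI_le ha0 ha1 hK hc hprob hF hFl hβ e) hsw

include ha0 ha1 hK hc hprob hF hFl in
theorem deriv_cont : ContinuousOn (fun β => ∑' e, covI J π F β e) I := by
  classical
  refine (unif ha0 ha1 hK hc hprob hF hFl).continuousOn (Eventually.of_forall fun R => ?_).frequently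
  have h : (fun β : ℝ => ∑' e, covF J m F R β e) = fun β =>
      ∑ e ∈ edgesOf (cube d (m + R)), 2 * jj J e *
        (ER J m R β (fun σ => one F σ * one (Eq2 e) σ) -
          ER J m R β (one F) * ER J m R β (one (Eq2 e))) := by
    funext β
    rw [tsum_eq_sum (s := edgesOf (cube d (m + R))) (fun e he => by unfold covF; rw [if_neg he])]
    refine Finset.sum_congr rfl fun e he => ?_
    unfold covF
    rw [if_pos he]
  rw [h]
  have hcont : ∀ f : (Site d → Bool) → ℝ, Continuous fun β => ER J m R β f := fun f =>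
    continuous_iff_continuousAt.2 fun β => (deriv_fin β J (cube d (m + R)) om f).continuousAt
  refine Continuous.continuousOn (continuous_finsetSum _ fun e _ => ?_)
  exact continuous_const.mul ((hcont _).sub ((hcont _).mul (hcont _)))

end main

end Pool.Agent.Q220.EA
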